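import Mathlib
import Pool.Agent.H.MP_17c4bf_an.E

set_option autoImplicit false

namespace Pool.Agent.Results.MP_17c4bf_an.NotWeakAsplund

open Pool.Agent.H.MP_17c4bf_an

theorem result : ∃ (E F : Type) (_ : NormedAddCommGroup E) (_ : NormedSpace ℝ E)
    (_ : NormedAddCommGroup F) (_ : NormedSpace ℝ F),
    CompleteSpace E ∧ WeakAsplund (E × F) ∧ ¬ WeakAsplund E := by
  obtain ⟨A, h1, h2⟩ := main
  exact ⟨XX A, FF, inferInstance, inferInstance, inferInstance, inferInstance, inferInstance, h1, h2⟩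

end Pool.Agent.Results.MP_17c4bf_an.NotWeakAsplund
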